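import Pool.Agent.H.MP_1611f1_gt.TW.SusDefs
import Pool.Agent.H.MP_1611f1_gt.TW.Multi

/-!
The pieces of the theorem on plumbed annuli.
-/

namespace Pool.Agent.H.MP_1611f1_gt.HW

open Topology Set Filter
open Pool.Agent.H.MP_1611f1_gt.BR.U (Ci)
open Pool.Agent.H.MP_1611f1_gt.G (Ended Linear MTorus Detected)
open Pool.Agent.H.MP_1611f1_gt.LG (Drilled Cylinder)

/-- The pieces of the main theorem, with the admissible covectors `(x j, y j)` at their ends `j`.
* `fibred`: the mapping torus `M₀` of a homeomorphism `ψ` of a connected surface `S` with ends (possibly none), minus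
  curves. There are disjoint pairs (`b ∈ W`, at least one) of crossing annuli in `S`, and `ψ` is the identity on the first
  annulus of every pair (`TW.Crosses`). The curves (`TW.FibCurves`) are, for every `b`, the core `e b` of the second annulus
  in a fibre, and finitely many circles `j ∈ C b` over points of the core of the first annulus; and level curves in other
  fibres. The covectors satisfy `x j = 0`, `0 < ε y j` (for a sign `ε`) at the ends of `M₀`, `x k ≠ 0` at the new ends, and
  `0 < |y k| < |x k|` for the curves `k = e b`.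
* `walls`: a manifold `M₀` with a taut foliation `F`, given by `x j * θ + y j * t = const` near the ends of `M₀`, minus
  curves. There are disjoint parts of `M₀` (`b ∈ W`) with coordinates `(x₁, x₂, t)` in the neighbourhood `TW.VV` of a torus
  `x₁ = 0` and a circle `x₂ = t = 0`, where `F` is `{t = const}` (`TW.Box`). The curves (`TW.Boxes`) are, for every `b`, the circle `e b`
  (`x₂ = t = 0`), and circles `j ∈ C b` (`x₁ = 0`, `x₂ = const`); and leaf curves of `F` outside of these parts.
  The covectors satisfy `0 < |y k| < |x k|` for `k = e b`, `x j ≠ 0` for `j ∈ C b`; for the leaf curves see `LG.LeafCurve`.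
* `fol`: a manifold with a taut foliation which is given by `x j * θ + y j * t = const` near its ends. -/
inductive Good {M : Type} [TopologicalSpace M] {J : Type} (T : Ended M J) (x y : J → ℝ) : Prop
  | fibred {S : Type} [TopologicalSpace S] [ConnectedSpace S] {W : Type} [Finite W] [Nonempty W]
      (old : J → Prop) [Finite {j // ¬ old j}] (P : TW.Crosses S {j // old j} W)
      {M₀ : Type} [TopologicalSpace M₀] [T2Space M₀] (T₀ : Ended M₀ {j // old j})
      (Mt : MTorus P.E P.ψ T₀) (n : ℕ) (Nb : {j // ¬ old j} → Cylinder → M₀)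
      (e : W → {j // ¬ old j}) (C : W → Set {j // ¬ old j}) (Q : TW.FibCurves P Mt n Nb e C)
      (D : Drilled T₀ Nb T) (ε : ℝ) (hε : ε = 1 ∨ ε = -1)
      (hold : ∀ j, old j → x j = 0 ∧ 0 < ε * y j) (hnew : ∀ k, ¬ old k → x k ≠ 0)
      (hy : ∀ b, y (e b).1 ≠ 0) (hxy : ∀ b, |y (e b).1| < |x (e b).1|) : Good T x y
  | walls {M₀ : Type} [TopologicalSpace M₀] [T2Space M₀] (F : Foliation M₀) (hF : F.Taut)
      {W : Type} [Finite W] (N : W → Ci × Ci × Ci → M₀) (B : ∀ b, TW.Box F (N b))
      (old : J → Prop) [Finite {j // ¬ old j}]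
      (T₀ : Ended M₀ {j // old j}) (hlin : Linear T₀ F (fun j => x j) (fun j => y j))
      (Nb : {j // ¬ old j} → Cylinder → M₀) (e : W → {j // ¬ old j})
      (C : W → Set {j // ¬ old j}) (Q : TW.Boxes F N T₀ Nb e C x) (D : Drilled T₀ Nb T)
      (hC : ∀ b, ∀ j ∈ C b, x j.1 ≠ 0) (hy : ∀ b, y (e b).1 ≠ 0)
      (hxy : ∀ b, |y (e b).1| < |x (e b).1|) : Good T x y
  | fol [T2Space M] (h : Detected T x y) : Good T x y

end Pool.Agent.H.MP_1611f1_gt.HW
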